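import Mathlib

set_option autoImplicit false

namespace Pool.Agent.Results.MP_8484b9_co.RepeatedPaintCost

open Finset

/-- A colouring `c : V → {d colours}` is `d`-distinguishing if the identity is the only
automorphism of `G` preserving every colour class. -/
def IsDistinguishing {V : Type} (G : SimpleGraph V) {d : ℕ} (c : V → Fin d) : Prop :=
  ∀ φ : G ≃g G, (∀ v, c (φ v) = c v) → ∀ v, φ v = v

/-- The distinguishing number `D(G)`. -/
noncomputable def distinguishingNumber {V : Type} (G : SimpleGraph V) : ℕ :=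
  sInf {d | ∃ c : V → Fin d, IsDistinguishing G c}

/-- A fixing set: the identity is the only automorphism fixing every vertex of `S`. -/
def IsFixingSet {V : Type} (G : SimpleGraph V) (S : Finset V) : Prop :=
  ∀ φ : G ≃g G, (∀ v ∈ S, φ v = v) → ∀ v, φ v = v

/-- The fixing number `Fix(G)`. -/
noncomputable def fixingNumber {V : Type} (G : SimpleGraph V) : ℕ :=
  sInf {k | ∃ S : Finset V, IsFixingSet G S ∧ S.card = k}

/-- The paint cost `ρ^d(G)`: the least number of vertices outside a colour class of a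
`d`-distinguishing colouring. -/
noncomputable def paintCost {V : Type} [Fintype V] (G : SimpleGraph V) (d : ℕ) : ℕ :=
  sInf {k | ∃ c : V → Fin d, IsDistinguishing G c ∧
    ∃ i : Fin d, (univ.filter (fun v => c v ≠ i)).card = k}

/-- The frugal distinguishing number `F(G)`. -/
noncomputable def frugalNumber {V : Type} [Fintype V] (G : SimpleGraph V) : ℕ :=
  sInf {d | distinguishingNumber G ≤ d ∧ paintCost G d = fixingNumber G}

/-- The vertices: `(r, none)` is the row vertex of row `r`, `(r, some s)` is the cell in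
row `r` and column `s`. -/
abbrev W : Type := Fin 4 × Option (Fin 4)

/-- The Cartesian product of `K_4` and the star `K_{1,4}`. -/
def G : SimpleGraph W where
  Adj p q := (p.2 = q.2 ∧ p.1 ≠ q.1) ∨
    (p.1 = q.1 ∧ ((p.2 = none ∧ q.2 ≠ none) ∨ (p.2 ≠ none ∧ q.2 = none)))
  symm := ⟨by
    rintro p q (⟨h1, h2⟩ | ⟨h1, h2⟩)
    · exact Or.inl ⟨h1.symm, h2.symm⟩
    · refine Or.inr ⟨h1.symm, ?_⟩
      rcases h2 with ⟨a, b⟩ | ⟨a, b⟩
      · exact Or.inr ⟨b, a⟩
      · exact Or.inl ⟨b, a⟩⟩
  loopless := ⟨by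
    rintro p (⟨_, h⟩ | ⟨_, h⟩)
    · exact h rfl
    · rcases h with ⟨a, b⟩ | ⟨a, b⟩
      · exact b a
      · exact a b⟩

instance : DecidableRel G.Adj := fun p q => by
  unfold G; simp only; infer_instance

/-- The automorphism permuting rows by `σ` and columns by `τ`. -/
def aut (σ τ : Equiv.Perm (Fin 4)) : G ≃g G where
  toEquiv := Equiv.prodCongr σ (Equiv.optionCongr τ)
  map_rel_iff' := by
    rintro ⟨a, x⟩ ⟨b, y⟩
    simp only [G, Equiv.prodCongr_apply, Prod.map_apply, Equiv.optionCongr_apply,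
      EmbeddingLike.apply_eq_iff_eq, ne_eq, Option.map_eq_none_iff]
    have : (Option.map (⇑τ) x = Option.map (⇑τ) y) ↔ x = y :=
      (Option.map_injective τ.injective).eq_iff
    rw [this]

theorem aut_apply (σ τ : Equiv.Perm (Fin 4)) (r : Fin 4) (x : Option (Fin 4)) :
    aut σ τ (r, x) = (σ r, x.map τ) := rfl

/-! ### Upper bounds: colour refinement -/

/-- Weighted neighbour sum. -/
def nbr (e : W → ℕ) (v : W) : ℕ := ∑ w, (if G.Adj v w then 8 ^ (e w) else 0)

theorem nbr_invariant (φ : G ≃g G) (e : W → ℕ) (he : ∀ v, e (φ v) = e v) (v : W) :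
    nbr e (φ v) = nbr e v := by
  unfold nbr
  rw [← Equiv.sum_comp φ.toEquiv]
  refine Finset.sum_congr rfl fun w _ => ?_
  have h1 : G.Adj (φ v) (φ.toEquiv w) ↔ G.Adj v w := φ.map_rel_iff'
  have h2 : e (φ.toEquiv w) = e w := he w
  simp only [h1, h2]

theorem step (φ : G ≃g G) (e e' : W → ℕ)
    (h : ∀ v w, e v = e w → nbr e v = nbr e w → e' v = e' w)
    (he : ∀ v, e (φ v) = e v) : ∀ v, e' (φ v) = e' v := fun v =>
  h _ _ (he v) (nbr_invariant φ e he v)

/-- A table of values on the vertices: `a` on the cells, `b` on the row vertices. -/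
def tbl (a : Fin 4 → Fin 4 → ℕ) (b : Fin 4 → ℕ) : W → ℕ := fun p =>
  match p.2 with
  | none => b p.1
  | some s => a p.1 s

def e0 : W → ℕ := tbl (![![0, 0, 0, 0], ![0, 1, 0, 0], ![0, 0, 1, 1], ![0, 0, 0, 1]]) (![0, 0, 0, 0])
def e1 : W → ℕ := tbl (![![0, 4, 4, 5], ![0, 6, 4, 5], ![0, 4, 6, 7], ![0, 4, 4, 7]]) (![1, 2, 3, 2])
def e2 : W → ℕ := tbl (![![0, 7, 7, 10], ![1, 12, 8, 11], ![2, 9, 13, 15], ![1, 8, 8, 14]]) (![3, 5, 6, 4])
def e3 : W → ℕ := tbl (![![0, 9, 8, 14], ![2, 16, 12, 15], ![3, 13, 17, 19], ![1, 11, 10, 18]]) (![4, 6, 7, 5])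

theorem discrete_e (φ : G ≃g G) (h : ∀ v, e0 (φ v) = e0 v) : ∀ v, φ v = v := by
  have h1 : ∀ v, e1 (φ v) = e1 v := step φ e0 e1 (by decide +kernel) h
  have h2 : ∀ v, e2 (φ v) = e2 v := step φ e1 e2 (by decide +kernel) h1
  have h3 : ∀ v, e3 (φ v) = e3 v := step φ e2 e3 (by decide +kernel) h2
  have inj : ∀ v w, e3 v = e3 w → v = w := by decide +kernel
  exact fun v => inj _ _ (h3 v)

def f0 : W → ℕ := tbl (![![0, 0, 0, 0], ![0, 1, 0, 0], ![0, 0, 2, 0], ![0, 0, 0, 3]]) (![0, 0, 0, 0])
def f1 : W → ℕ := tbl (![![0, 5, 6, 7], ![0, 8, 6, 7], ![0, 5, 9, 7], ![0, 5, 6, 10]]) (![1, 2, 3, 4])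
def f2 : W → ℕ := tbl (![![0, 8, 11, 14], ![1, 17, 12, 15], ![2, 9, 18, 16], ![3, 10, 13, 19]]) (![4, 5, 6, 7])

theorem discrete_f (φ : G ≃g G) (h : ∀ v, f0 (φ v) = f0 v) : ∀ v, φ v = v := by
  have h1 : ∀ v, f1 (φ v) = f1 v := step φ f0 f1 (by decide +kernel) h
  have h2 : ∀ v, f2 (φ v) = f2 v := step φ f1 f2 (by decide +kernel) h1
  have inj : ∀ v w, f2 v = f2 w → v = w := by decide +kernel
  exact fun v => inj _ _ (h2 v)

/-- The colouring with four painted cells, one paint, viewed with `d` colours. -/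
def colE (d : ℕ) (hd : 1 < d) : W → Fin d := fun v => if e0 v = 1 then ⟨1, hd⟩ else ⟨0, by omega⟩

theorem colE_distinguishing (d : ℕ) (hd : 1 < d) : IsDistinguishing G (colE d hd) := by
  intro φ h
  apply discrete_e φ
  intro v
  have hv := h v
  have key : ∀ w, e0 w = 0 ∨ e0 w = 1 := by decide +kernel
  unfold colE at hv
  rcases key (φ v) with h1 | h1 <;> rcases key v with h2 | h2 <;>
    simp [h1, h2, Fin.ext_iff] at hv ⊢

theorem colE_card (d : ℕ) (hd : 1 < d) :
    (univ.filter (fun v => colE d hd v ≠ ⟨0, by omega⟩)).card = 4 := by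
  have : (univ.filter (fun v => colE d hd v ≠ ⟨0, by omega⟩)) =
      univ.filter (fun v => e0 v = 1) := by
    ext v
    by_cases h : e0 v = 1 <;> simp [colE, h, Fin.ext_iff]
  rw [this]
  decide +kernel

/-- The colouring with three painted cells and three paints. -/
def colF : W → Fin 4 := fun v => if f0 v = 1 then 1 else if f0 v = 2 then 2 else
  if f0 v = 3 then 3 else 0

theorem colF_val : ∀ v, (colF v).val = f0 v := by decide +kernel

theorem colF_distinguishing : IsDistinguishing G colF := by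
  intro φ h
  apply discrete_f φ
  intro v
  rw [← colF_val, ← colF_val, h v]

theorem colF_card : (univ.filter (fun v => colF v ≠ 0)).card = 3 := by decide +kernel

/-! ### Lower bounds -/

theorem exists_untouched : ∀ R : Finset (Fin 4), R.card ≤ 2 → ∃ a b, a ≠ b ∧ a ∉ R ∧ b ∉ R := by
  decide +kernel

/-- Two untouched rows can be swapped. -/
theorem row_swap_fix (P : Finset W) (h : (P.image Prod.fst).card ≤ 2) :
    ∃ φ : G ≃g G, (∀ v ∈ P, φ v = v) ∧ (∀ v, φ (φ v) = v) ∧ ∃ v, φ v ≠ v := by
  obtain ⟨a, b, hab, ha, hb⟩ := exists_untouched _ h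
  refine ⟨aut (Equiv.swap a b) 1, ?_, ?_, (a, none), ?_⟩
  · rintro ⟨r, x⟩ hv
    have hr : r ∈ P.image Prod.fst := mem_image_of_mem _ hv
    rw [aut_apply, Equiv.swap_apply_of_ne_of_ne (fun h : r = a => ha (h ▸ hr))
      (fun h : r = b => hb (h ▸ hr))]
    simp
  · rintro ⟨r, x⟩
    simp [aut_apply]
  · rw [aut_apply]
    simp [hab.symm]

/-- The columns touched by a set of vertices. -/
def cols (P : Finset W) : Finset (Fin 4) := univ.filter (fun s => ∃ p ∈ P, p.2 = some s)

/-- Two untouched columns can be swapped. -/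
theorem col_swap_fix (P : Finset W) (h : (cols P).card ≤ 2) :
    ∃ φ : G ≃g G, (∀ v ∈ P, φ v = v) ∧ (∀ v, φ (φ v) = v) ∧ ∃ v, φ v ≠ v := by
  obtain ⟨a, b, hab, ha, hb⟩ := exists_untouched _ h
  refine ⟨aut 1 (Equiv.swap a b), ?_, ?_, (0, some a), ?_⟩
  · rintro ⟨r, x⟩ hv
    rw [aut_apply]
    rcases x with _ | s
    · simp
    · have hs : s ∈ cols P := by
        simp only [cols, mem_filter, mem_univ, true_and]
        exact ⟨_, hv, rfl⟩
      simp only [Option.map_some]
      rw [Equiv.swap_apply_of_ne_of_ne (fun h : s = a => ha (h ▸ hs))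
        (fun h : s = b => hb (h ▸ hs))]
      simp
  · rintro ⟨r, x⟩
    rw [aut_apply, aut_apply]
    rcases x with _ | s <;> simp
  · rw [aut_apply]
    simp [hab.symm]

/-- An involutive automorphism preserving the colours on the painted set `P` and mapping
`P` into itself preserves the colouring. -/
theorem preserves {d : ℕ} (c : W → Fin d) (i : Fin d) (φ : G ≃g G)
    (hinv : ∀ v, φ (φ v) = v)
    (hP : ∀ v, c v ≠ i → c (φ v) = c v) : ∀ v, c (φ v) = c v := by
  intro v
  by_cases hv : c v = i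
  · by_contra hne
    have h1 : c (φ v) ≠ i := fun h => hne (h.trans hv.symm)
    have h2 := hP _ h1
    rw [hinv] at h2
    exact hne h2.symm
  · exact hP v hv

theorem three_le_of_fixing (S : Finset W) (h : IsFixingSet G S) : 3 ≤ S.card := by
  by_contra hlt
  push Not at hlt
  have : (S.image Prod.fst).card ≤ 2 := le_trans card_image_le (by omega)
  obtain ⟨φ, h1, -, v, hv⟩ := row_swap_fix S this
  exact hv (h φ h1 v)

theorem painted_isFixing {d : ℕ} (c : W → Fin d) (hc : IsDistinguishing G c) (i : Fin d) :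
    IsFixingSet G (univ.filter (fun v => c v ≠ i)) := by
  intro φ hφ
  apply hc φ
  intro v
  by_cases hv : c v = i
  · by_contra hne
    have h1 : c (φ v) ≠ i := fun h => hne (h.trans hv.symm)
    have h2 : φ (φ v) = φ v := hφ _ (by simp [h1])
    have h3 : φ v = v := φ.injective h2
    rw [h3] at hne
    exact hne rfl
  · rw [hφ v (by simp [hv])]

theorem four_le {d : ℕ} (hd : d ≤ 3) (c : W → Fin d) (hc : IsDistinguishing G c) (i : Fin d) :
    4 ≤ (univ.filter (fun v => c v ≠ i)).card := by
  by_contra hlt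
  push Not at hlt
  set P := univ.filter (fun v => c v ≠ i) with hPdef
  have memP : ∀ v, v ∈ P ↔ c v ≠ i := fun v => by simp [hPdef]
  -- rows
  have hrows : 3 ≤ (P.image Prod.fst).card := by
    by_contra hr
    push Not at hr
    obtain ⟨φ, h1, h2, v, hv⟩ := row_swap_fix P (by omega)
    exact hv (hc φ (preserves c i φ h2 fun w hw => by rw [h1 w ((memP w).2 hw)]) v)
  have hcols : 3 ≤ (cols P).card := by
    by_contra hr
    push Not at hr
    obtain ⟨φ, h1, h2, v, hv⟩ := col_swap_fix P (by omega)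
    exact hv (hc φ (preserves c i φ h2 fun w hw => by rw [h1 w ((memP w).2 hw)]) v)
  have hle1 : (P.image Prod.fst).card ≤ P.card := card_image_le
  have hP3 : P.card = 3 := by omega
  have inj1 : Set.InjOn Prod.fst (P : Set W) := by
    apply Finset.injOn_of_card_image_eq
    omega
  -- columns
  have hsub : (cols P).image some ⊆ P.image Prod.snd := by
    intro x hx
    simp only [cols, mem_image, mem_filter, mem_univ, true_and] at hx ⊢
    obtain ⟨s, ⟨p, hp, hps⟩, rfl⟩ := hx
    exact ⟨p, hp, hps⟩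
  have hcard : ((cols P).image some).card = (cols P).card :=
    card_image_of_injective _ (Option.some_injective _)
  have hle2 : (P.image Prod.snd).card ≤ P.card := card_image_le
  have heq : (cols P).image some = P.image Prod.snd :=
    eq_of_subset_of_card_le hsub (by omega)
  have inj2 : Set.InjOn Prod.snd (P : Set W) := by
    apply Finset.injOn_of_card_image_eq
    have := congrArg Finset.card heq
    omega
  have hsome : ∀ p ∈ P, ∃ s, p.2 = some s := by
    intro p hp
    have : p.2 ∈ (cols P).image some := heq ▸ mem_image_of_mem _ hp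
    obtain ⟨s, -, hs⟩ := mem_image.1 this
    exact ⟨s, hs.symm⟩
  -- pigeonhole on the colours
  obtain ⟨p, hp, q, hq, hpq, hcpq⟩ : ∃ p ∈ P, ∃ q ∈ P, p ≠ q ∧ c p = c q := by
    apply exists_ne_map_eq_of_card_lt_of_maps_to (t := (univ : Finset (Fin d)).erase i)
    · rw [card_erase_of_mem (mem_univ i), card_univ, Fintype.card_fin]
      omega
    · intro v hv
      have := (memP v).1 hv
      simp [this]
  obtain ⟨s, hs⟩ := hsome p hp
  obtain ⟨t, ht⟩ := hsome q hq
  obtain ⟨a, x⟩ := p
  obtain ⟨b, y⟩ := q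
  simp only at hs ht
  subst hs
  subst ht
  have hab : a ≠ b := fun h => hpq (inj1 (mem_coe.2 hp) (mem_coe.2 hq) h)
  have hst : s ≠ t := fun h => hpq (inj2 (mem_coe.2 hp) (mem_coe.2 hq) (by simp [h]))
  let φ := aut (Equiv.swap a b) (Equiv.swap s t)
  have hinv : ∀ v, φ (φ v) = v := by
    rintro ⟨r, x⟩
    simp only [φ]
    rw [aut_apply, aut_apply]
    rcases x with _ | u <;> simp
  have hφp : φ (a, some s) = (b, some t) := by
    simp only [φ]
    rw [aut_apply]
    simp
  have hpres : ∀ v, c (φ v) = c v := by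
    apply preserves c i φ hinv
    intro v hv
    by_cases h1 : v = (a, some s)
    · rw [h1, hφp, hcpq]
    by_cases h2 : v = (b, some t)
    · have : φ (b, some t) = (a, some s) := by rw [← hφp, hinv]
      rw [h2, this, hcpq]
    have hvP : v ∈ P := (memP v).2 hv
    obtain ⟨u, hu⟩ := hsome v hvP
    obtain ⟨r, x⟩ := v
    simp only at hu
    subst hu
    have hra : r ≠ a := fun h => h1 (inj1 (mem_coe.2 hvP) (mem_coe.2 hp) h)
    have hrb : r ≠ b := fun h => h2 (inj1 (mem_coe.2 hvP) (mem_coe.2 hq) h)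
    have hus : u ≠ s := fun h => h1 (inj2 (mem_coe.2 hvP) (mem_coe.2 hp) (by simp [h]))
    have hut : u ≠ t := fun h => h2 (inj2 (mem_coe.2 hvP) (mem_coe.2 hq) (by simp [h]))
    have : φ (r, some u) = (r, some u) := by
      simp only [φ]
      rw [aut_apply, Equiv.swap_apply_of_ne_of_ne hra hrb, Option.map_some,
        Equiv.swap_apply_of_ne_of_ne hus hut]
    rw [this]
  have := hc φ hpres (a, some s)
  rw [hφp] at this
  exact hpq this.symm

theorem paintCost_two : paintCost G 2 = 4 := by
  apply le_antisymm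
  · exact Nat.sInf_le ⟨_, colE_distinguishing 2 (by norm_num), _, colE_card 2 (by norm_num)⟩
  · apply le_csInf
    · exact ⟨4, _, colE_distinguishing 2 (by norm_num), _, colE_card 2 (by norm_num)⟩
    · rintro k ⟨c, hc, i, rfl⟩
      exact four_le (by norm_num) c hc i

theorem paintCost_three : paintCost G 3 = 4 := by
  apply le_antisymm
  · exact Nat.sInf_le ⟨_, colE_distinguishing 3 (by norm_num), _, colE_card 3 (by norm_num)⟩
  · apply le_csInf
    · exact ⟨4, _, colE_distinguishing 3 (by norm_num), _, colE_card 3 (by norm_num)⟩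
    · rintro k ⟨c, hc, i, rfl⟩
      exact four_le le_rfl c hc i

theorem paintCost_four : paintCost G 4 = 3 := by
  apply le_antisymm
  · exact Nat.sInf_le ⟨_, colF_distinguishing, 0, colF_card⟩
  · apply le_csInf
    · exact ⟨3, _, colF_distinguishing, 0, colF_card⟩
    · rintro k ⟨c, hc, i, rfl⟩
      exact three_le_of_fixing _ (painted_isFixing c hc i)

theorem fixingNumber_eq : fixingNumber G = 3 := by
  apply le_antisymm
  · exact Nat.sInf_le ⟨_, painted_isFixing colF colF_distinguishing 0, colF_card⟩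
  · apply le_csInf
    · exact ⟨3, _, painted_isFixing colF colF_distinguishing 0, colF_card⟩
    · rintro k ⟨S, hS, rfl⟩
      exact three_le_of_fixing S hS

theorem distinguishingNumber_eq : distinguishingNumber G = 2 := by
  apply le_antisymm
  · exact Nat.sInf_le ⟨_, colE_distinguishing 2 (by norm_num)⟩
  · apply le_csInf
    · exact ⟨2, _, colE_distinguishing 2 (by norm_num)⟩
    · rintro d ⟨c, hc⟩
      by_contra hlt
      push Not at hlt
      have hall : ∀ v w, c v = c w := by
        intro v w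
        have h1 := (c v).isLt
        have h2 := (c w).isLt
        apply Fin.ext
        omega
      obtain ⟨φ, -, -, v, hv⟩ := row_swap_fix ∅ (by simp)
      exact hv (hc φ (fun w => hall _ _) v)

theorem frugalNumber_eq : frugalNumber G = 4 := by
  apply le_antisymm
  · refine Nat.sInf_le ⟨?_, ?_⟩
    · rw [distinguishingNumber_eq]; norm_num
    · rw [paintCost_four, fixingNumber_eq]
  · apply le_csInf
    · refine ⟨4, ?_, ?_⟩
      · rw [distinguishingNumber_eq]; norm_num
      · rw [paintCost_four, fixingNumber_eq]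
    · rintro d ⟨h1, h2⟩
      rw [distinguishingNumber_eq] at h1
      rw [fixingNumber_eq] at h2
      by_contra hlt
      push Not at hlt
      interval_cases d
      · rw [paintCost_two] at h2; omega
      · rw [paintCost_three] at h2; omega

/-- There is a finite graph with paint cost spectrum `(2; 4, 4, 3)`: its distinguishing number
is `2`, its fixing number is `3`, its frugal distinguishing number is `4`, and
`ρ^2 = ρ^3 = 4`, `ρ^4 = 3`. -/
theorem result : ∃ (V : Type) (_ : Fintype V) (G : SimpleGraph V),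
    distinguishingNumber G = 2 ∧ frugalNumber G = 4 ∧ fixingNumber G = 3 ∧
      paintCost G 2 = 4 ∧ paintCost G 3 = 4 ∧ paintCost G 4 = 3 :=
  ⟨W, inferInstance, G, distinguishingNumber_eq, frugalNumber_eq, fixingNumber_eq,
    paintCost_two, paintCost_three, paintCost_four⟩

end Pool.Agent.Results.MP_8484b9_co.RepeatedPaintCost
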